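import Mathlib
import Pool.Agent.H.MP_65850b_an.C

set_option autoImplicit false

namespace Pool.Agent.Results.MP_c54d0a_an.Four

open scoped Real

/-- the kernel, summed over n + 1 = 1, 2, ... -/
noncomputable def Phi (t : ℝ) : ℝ :=
  2 * ∑' n : ℕ, (2 * π ^ 2 * ((n : ℝ) + 1) ^ 4 * Real.exp (9 * t / 2) -
    3 * π * ((n : ℝ) + 1) ^ 2 * Real.exp (5 * t / 2)) *
      Real.exp (-π * ((n : ℝ) + 1) ^ 2 * Real.exp (2 * t))

/-- the truncated cosine transform -/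
noncomputable def F (R : ℝ) (z : ℂ) : ℂ :=
  ∫ x in (0 : ℝ)..R, (Phi x : ℂ) * Complex.cos (z * x)

lemma F_eq (R : ℝ) (z : ℂ) : F R z = 4 * H.MP_65850b_an.HH (R / 2) (2 * z) := by
  have e := intervalIntegral.integral_comp_div (a := 0) (b := R) (c := 2)
    (fun t : ℝ => (H.MP_65850b_an.Phi t : ℂ) * Complex.cos (2 * z * t)) two_ne_zero
  rw [zero_div, Complex.real_smul] at e
  rw [H.MP_65850b_an.HH, show (4 : ℂ) = 2 * (2 : ℝ) by norm_num, mul_assoc, ← e, F,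
    ← intervalIntegral.integral_const_mul]
  congr 1
  ext x
  have h : Phi x = 2 * H.MP_65850b_an.Phi (x / 2) := by
    rw [Phi, H.MP_65850b_an.Phi, mul_div_assoc, mul_div_assoc, show 4 * (x / 2) = 2 * x by ring]
  rw [h]
  push_cast
  ring_nf

lemma F_neg (R : ℝ) (z : ℂ) : F R (-z) = F R z := by simp [F]

lemma F_conj (R : ℝ) (z : ℂ) : F R (starRingEnd ℂ z) = starRingEnd ℂ (F R z) := by
  simp only [F, intervalIntegral, map_sub, ← integral_conj, map_mul, Complex.conj_ofReal,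
    ← Complex.cos_conj]

theorem result : (∀ R : ℝ, 0 < R → Differentiable ℂ (F R) ∧ F R 0 ≠ 0) ∧
    ∃ R₀ : ℝ, 0 < R₀ ∧ ∀ R : ℝ, R₀ ≤ R → 4 ≤ {z : ℂ | z.im ≠ 0 ∧ F R z = 0}.encard := by
  refine ⟨fun R hR => ⟨?_, ?_⟩, ?_⟩
  · rw [funext (F_eq R)]
    exact ((H.MP_65850b_an.HH_diff (R / 2) (by linarith)).comp (f := fun z => 2 * z)
      (by fun_prop)).const_mul 4
  · rw [F_eq]
    exact mul_ne_zero (by norm_num) (H.MP_65850b_an.HH_axis _ (by linarith) _ (by simp))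
  obtain ⟨a, ha⟩ := Filter.eventually_atTop.1 (H.MP_65850b_an.main 1)
  refine ⟨max (2 * a) 1, lt_max_of_lt_right one_pos, fun R hR => ?_⟩
  obtain ⟨z, h1, h2, h3⟩ := ha (R / 2) (by linarith [le_of_max_le_left hR])
  obtain ⟨w, rfl⟩ : ∃ w, z = 2 * w := ⟨z / 2, by ring⟩
  have k1 : F R w = 0 := by rw [F_eq, h1, mul_zero]
  have k2 : w.im ≠ 0 := by
    intro h
    norm_num [h] at h2
  have k3 : w.re ≠ 0 := by simpa using h3
  have k4 : ({w, -w, starRingEnd ℂ w, -starRingEnd ℂ w} : Set ℂ).encard = 4 := by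
    have n1 : ∀ x : ℝ, x ≠ 0 → x ≠ -x ∧ -x ≠ x := fun x h =>
      ⟨fun e => h (by linarith), fun e => h (by linarith)⟩
    rw [Set.encard_insert_of_notMem, Set.encard_insert_of_notMem, Set.encard_pair]
    · rfl
    all_goals simp [Complex.ext_iff, n1 _ k2, n1 _ k3]
  rw [← k4]
  refine Set.encard_le_encard ?_
  rintro u (rfl | rfl | rfl | rfl) <;> simp [k1, k2, F_neg, F_conj]

end Pool.Agent.Results.MP_c54d0a_an.Four
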